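import Pool.Agent.H130R6.WeakNbhd

/-!
# Local diametral duality for norming dual pairs
-/

set_option autoImplicit false

namespace Pool.Agent.Y302.DDP

open Finset

section Core

variable {E : Type*} [NormedAddCommGroup E] [NormedSpace ℝ E]
variable {V : Type*} [AddCommGroup V] [Module ℝ V]

/-- One step: from `a` far from `x` get a new average. -/
lemma step (j : V →ₗ[ℝ] (E →L[ℝ] ℝ)) (x : E) (hx : ‖x‖ = 1) (r : ℝ) (hr : 0 < r)
    (H : ∀ (v : V) (x' : E), ‖x'‖ = 1 → ‖x' - x‖ < r → ∀ τ : ℝ, 0 < τ → ∀ ε : ℝ, 0 < ε →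
      ∃ y : E, ‖y‖ ≤ 1 ∧ j v x' - τ < j v y ∧ 2 - ε < ‖x' - y‖)
    (m : ℕ) (g : Fin m → V) (C : ℝ)
    (hC : 4 * ∑ i, ‖j (g i)‖ ^ 2 + 1 ≤ C) (n : ℕ) :
    ∀ κ : ℝ, 0 < κ → ∃ a : E, ‖a‖ ≤ 1 ∧ 2 - κ < ‖x - a‖ ∧
      ∑ i, (j (g i) ((n : ℝ) • (a - x))) ^ 2 ≤ n * C := by
  induction n with
  | zero =>
    intro κ hκ
    obtain ⟨y, hy1, -, hy2⟩ := H 0 x hx (by rw [sub_self, norm_zero]; exact hr) 1 one_pos κ hκ
    refine ⟨y, hy1, hy2, ?_⟩
    simp
  | succ n ih =>
    intro κ hκ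
    set S : ℝ := ∑ i, ‖j (g i)‖ ^ 2 with hS
    have hS0 : 0 ≤ S := Finset.sum_nonneg fun i _ => by positivity
    set D : ℝ := 16 * ((n : ℝ) + 1) * (S + 1) with hD
    have hn0 : (0 : ℝ) ≤ n := Nat.cast_nonneg n
    have hD1 : 16 ≤ D := by
      rw [hD]; nlinarith [mul_nonneg hn0 hS0]
    have hDpos : 0 < D := by linarith
    -- eta
    set η : ℝ := min (1 / D) (r / 4) with hη
    have hηpos : 0 < η := lt_min (by positivity) (by positivity)
    have hηle : η ≤ 1 / 16 :=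
      (min_le_left _ _).trans (one_div_le_one_div_of_le (by norm_num) hD1)
    have hηr : η ≤ r / 4 := min_le_right _ _
    have hηD : η * D ≤ 1 := by
      have h1 : η * D ≤ 1 / D * D := mul_le_mul_of_nonneg_right (min_le_left _ _) hDpos.le
      have h2 : 1 / D * D = 1 := by field_simp
      linarith
    set κ' : ℝ := η * min κ 1 / 16 with hκ'
    have hmin : 0 < min κ 1 := lt_min hκ one_pos
    have hmin1 : min κ 1 ≤ 1 := min_le_right _ _
    have hminκ : min κ 1 ≤ κ := min_le_left _ _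
    have hκ'pos : 0 < κ' := by positivity
    have hκ'le : κ' ≤ η / 16 := by
      have h0 : κ' = η * (min κ 1) / 16 := by rw [hκ']
      have h1 : η * (min κ 1) ≤ η * 1 := mul_le_mul_of_nonneg_left hmin1 hηpos.le
      rw [h0]; linarith
    obtain ⟨a, ha1, ha2, ha3⟩ := ih κ' hκ'pos
    -- the perturbed point
    set u : E := (1 - η) • x - η • a with hu
    have hu1 : ‖u‖ ≤ 1 := by
      calc ‖u‖ ≤ ‖(1 - η) • x‖ + ‖η • a‖ := norm_sub_le _ _
        _ = (1 - η) * ‖x‖ + η * ‖a‖ := by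
            rw [norm_smul, norm_smul, Real.norm_of_nonneg (by linarith),
              Real.norm_of_nonneg hηpos.le]
        _ ≤ (1 - η) * 1 + η * 1 := by
            rw [hx]
            have := mul_le_mul_of_nonneg_left ha1 hηpos.le
            linarith
        _ = 1 := by ring
    have hu2 : 1 - κ' < ‖u‖ := by
      have h1 : x - a = u + (η • x - (1 - η) • a) := by
        rw [hu]; module
      have h2 : ‖η • x - (1 - η) • a‖ ≤ 1 := by
        calc ‖η • x - (1 - η) • a‖ ≤ ‖η • x‖ + ‖(1 - η) • a‖ := norm_sub_le _ _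
          _ = η * ‖x‖ + (1 - η) * ‖a‖ := by
              rw [norm_smul, norm_smul, Real.norm_of_nonneg hηpos.le,
                Real.norm_of_nonneg (by linarith)]
          _ ≤ η * 1 + (1 - η) * 1 := by
              rw [hx]
              have : (1 - η) * ‖a‖ ≤ (1 - η) * 1 := mul_le_mul_of_nonneg_left ha1 (by linarith)
              linarith
          _ = 1 := by ring
      have h3 : ‖x - a‖ ≤ ‖u‖ + ‖η • x - (1 - η) • a‖ := by
        rw [h1]; exact norm_add_le _ _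
      linarith
    have hupos : 0 < ‖u‖ := by linarith
    set f : E := (‖u‖)⁻¹ • u with hf
    have hf1 : ‖f‖ = 1 := by
      rw [hf, norm_smul, norm_inv, norm_norm, inv_mul_cancel₀ hupos.ne']
    have huf : u = ‖u‖ • f := by
      rw [hf, smul_smul, mul_inv_cancel₀ hupos.ne', one_smul]
    -- distance from x to f
    have hxf : ‖x - f‖ ≤ 2 * η + κ' := by
      have h1 : ‖x - u‖ ≤ 2 * η := by
        have : x - u = η • (x + a) := by rw [hu]; module
        rw [this, norm_smul, Real.norm_of_nonneg hηpos.le]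
        have : ‖x + a‖ ≤ 2 := (norm_add_le _ _).trans (by rw [hx]; linarith)
        have := mul_le_mul_of_nonneg_left this hηpos.le
        linarith
      have h2 : ‖u - f‖ ≤ κ' := by
        have : u - f = (‖u‖ - 1) • f := by
          rw [sub_smul, one_smul, ← huf]
        rw [this, norm_smul, hf1, mul_one, Real.norm_eq_abs, abs_le]
        constructor <;> linarith
      calc ‖x - f‖ = ‖(x - u) + (u - f)‖ := by congr 1; abel
        _ ≤ ‖x - u‖ + ‖u - f‖ := norm_add_le _ _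
        _ ≤ _ := by linarith
    -- the functional
    set w : V := - ∑ i, (j (g i) (a - x)) • g i with hw
    have hjw : ∀ z : E, j w z = - ∑ i, (j (g i) (a - x)) * j (g i) z := by
      intro z
      rw [hw, map_neg, map_sum]
      simp
    have hax : ‖a - x‖ ≤ 2 := (norm_sub_le _ _).trans (by rw [hx]; linarith)
    have hjwx : |j w (x - f)| ≤ 2 * S * ‖x - f‖ := by
      rw [hjw, abs_neg]
      calc |∑ i, (j (g i) (a - x)) * j (g i) (x - f)|
          ≤ ∑ i, |(j (g i) (a - x)) * j (g i) (x - f)| := Finset.abs_sum_le_sum_abs _ _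
        _ ≤ ∑ i, 2 * ‖j (g i)‖ ^ 2 * ‖x - f‖ := by
            refine Finset.sum_le_sum fun i _ => ?_
            rw [abs_mul]
            have h1 : |j (g i) (a - x)| ≤ ‖j (g i)‖ * 2 := by
              have := (j (g i)).le_opNorm (a - x)
              rw [Real.norm_eq_abs] at this
              exact this.trans (mul_le_mul_of_nonneg_left hax (norm_nonneg _))
            have h2 : |j (g i) (x - f)| ≤ ‖j (g i)‖ * ‖x - f‖ := by
              have := (j (g i)).le_opNorm (x - f)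
              rwa [Real.norm_eq_abs] at this
            calc |j (g i) (a - x)| * |j (g i) (x - f)|
                ≤ (‖j (g i)‖ * 2) * (‖j (g i)‖ * ‖x - f‖) :=
                  mul_le_mul h1 h2 (abs_nonneg _) (by positivity)
              _ = _ := by ring
        _ = 2 * S * ‖x - f‖ := by
            rw [hS, Finset.mul_sum, Finset.sum_mul]
    obtain ⟨z, hz1, hz2, hz3⟩ := H w f hf1 (by rw [norm_sub_rev]; linarith) η hηpos κ' hκ'pos
    refine ⟨((n : ℝ) + 1)⁻¹ • ((n : ℝ) • a + z), ?_, ?_, ?_⟩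
    · rw [norm_smul, norm_inv, Real.norm_of_nonneg (by positivity : (0 : ℝ) ≤ (n : ℝ) + 1)]
      rw [inv_mul_le_iff₀ (by positivity), mul_one]
      calc ‖(n : ℝ) • a + z‖ ≤ ‖(n : ℝ) • a‖ + ‖z‖ := norm_add_le _ _
        _ ≤ n + 1 := by
            rw [norm_smul, Real.norm_of_nonneg hn0]
            have := mul_le_mul_of_nonneg_left ha1 hn0
            linarith
    · -- distance
      obtain ⟨ψ, hψ1, hψ2⟩ := exists_dual_vector'' ℝ (f - z)
      have hψle : ∀ v : E, ψ v ≤ ‖v‖ := by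
        intro v
        have h1 := ψ.le_opNorm v
        rw [Real.norm_eq_abs] at h1
        have h2 : ‖ψ‖ * ‖v‖ ≤ 1 * ‖v‖ := mul_le_mul_of_nonneg_right hψ1 (norm_nonneg _)
        linarith [le_abs_self (ψ v)]
      have hψge : ∀ v : E, -‖v‖ ≤ ψ v := by
        intro v
        have := hψle (-v)
        rw [map_neg, norm_neg] at this
        linarith
      have e1 : ψ f - ψ z = ‖f - z‖ := by
        rw [← map_sub, hψ2]; simp
      have e2 : ψ f ≤ 1 := (hψle f).trans hf1.le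
      have e3 : -1 ≤ ψ z := by linarith [hψge z]
      have e4 : 1 - κ' < ψ f := by linarith
      have e5 : ψ z < -1 + κ' := by linarith
      have e6 : ψ u = ‖u‖ * ψ f := by
        conv_lhs => rw [huf]
        rw [map_smul, smul_eq_mul]
      have e7 : ψ u = (1 - η) * ψ x - η * ψ a := by
        rw [hu, map_sub, map_smul, map_smul, smul_eq_mul, smul_eq_mul]
      have e8 : 1 - 2 * κ' ≤ ψ u := by
        rw [e6]
        have hk1 : κ' ≤ 1 := by linarith
        have hmm : (1 - κ') * (1 - κ') ≤ ‖u‖ * ψ f :=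
          mul_le_mul hu2.le e4.le (by linarith) (norm_nonneg _)
        have : 1 - 2 * κ' ≤ (1 - κ') * (1 - κ') := by
          have := sq_nonneg κ'
          linarith
        linarith
      have e9 : ψ x ≤ 1 := (hψle x).trans hx.le
      have e10 : -1 ≤ ψ a := by linarith [hψge a]
      have e9' : (1 - η) * ψ x ≤ (1 - η) * 1 := mul_le_mul_of_nonneg_left e9 (by linarith)
      have e10' : η * (-1) ≤ η * ψ a := mul_le_mul_of_nonneg_left e10 hηpos.le
      have e11 : η - 2 * κ' ≤ - (η * ψ a) := by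
        linarith
      have e12 : (1 - η) - 2 * κ' ≤ (1 - η) * ψ x := by
        linarith
      have hηκ : η * κ' ≤ 1 / 16 * κ' := mul_le_mul_of_nonneg_right hηle hκ'pos.le
      have e13 : 1 - 4 * κ' ≤ ψ x := by
        have : (1 - η) * (1 - 4 * κ') ≤ (1 - η) * ψ x := by
          have h0 : (1 - η) * (1 - 4 * κ') = 1 - η - 4 * κ' + 4 * (η * κ') := by ring
          rw [h0]; linarith
        exact le_of_mul_le_mul_left this (by linarith)
      have e14 : ψ a ≤ -1 + min κ 1 / 8 := by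
        have hk2 : 2 * κ' = η * (min κ 1 / 8) := by rw [hκ']; ring
        have : η * ψ a ≤ η * (-1 + min κ 1 / 8) := by
          have h0 : η * (-1 + min κ 1 / 8) = - η + η * (min κ 1 / 8) := by ring
          rw [h0, ← hk2]; linarith
        exact le_of_mul_le_mul_left this hηpos
      have e15 : κ' ≤ min κ 1 / 256 := by
        have h0 : κ' = η * (min κ 1 / 16) := by rw [hκ']; ring
        have h1 : η * (min κ 1 / 16) ≤ 1 / 16 * (min κ 1 / 16) :=
          mul_le_mul_of_nonneg_right hηle (by positivity)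
        rw [h0]; linarith
      have hav : ψ (((n : ℝ) + 1)⁻¹ • ((n : ℝ) • a + z)) ≤ -1 + min κ 1 / 8 := by
        rw [map_smul, map_add, map_smul, smul_eq_mul, smul_eq_mul,
          inv_mul_le_iff₀ (by positivity)]
        have h0 : (n : ℝ) * ψ a ≤ n * (-1 + min κ 1 / 8) := mul_le_mul_of_nonneg_left e14 hn0
        have h1 : ψ z ≤ -1 + min κ 1 / 8 := by linarith
        have h2 : ((n : ℝ) + 1) * (-1 + min κ 1 / 8) = n * (-1 + min κ 1 / 8) + (-1 + min κ 1 / 8) := by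
          ring
        rw [h2]; linarith
      calc 2 - κ ≤ 2 - min κ 1 := by linarith
        _ < (1 - 4 * κ') - (-1 + min κ 1 / 8) := by linarith
        _ ≤ ψ x - ψ (((n : ℝ) + 1)⁻¹ • ((n : ℝ) • a + z)) := by linarith
        _ = ψ (x - ((n : ℝ) + 1)⁻¹ • ((n : ℝ) • a + z)) := by rw [map_sub]
        _ ≤ _ := hψle _
    · -- sum of squares
      have hn1 : ((n : ℝ) + 1) ≠ 0 := by positivity
      have key : (((n + 1 : ℕ) : ℝ)) • (((n : ℝ) + 1)⁻¹ • ((n : ℝ) • a + z) - x)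
          = (n : ℝ) • (a - x) + (z - x) := by
        push_cast
        rw [smul_sub, smul_smul, mul_inv_cancel₀ hn1, one_smul]
        module
      rw [key]
      have hexp : ∑ i, (j (g i) ((n : ℝ) • (a - x) + (z - x))) ^ 2
          = ∑ i, (j (g i) ((n : ℝ) • (a - x))) ^ 2
            + 2 * n * (∑ i, (j (g i) (a - x)) * j (g i) (z - x))
            + ∑ i, (j (g i) (z - x)) ^ 2 := by
        rw [Finset.mul_sum, ← Finset.sum_add_distrib, ← Finset.sum_add_distrib]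
        refine Finset.sum_congr rfl fun i _ => ?_
        rw [map_add, map_smul, smul_eq_mul]
        ring
      rw [hexp]
      have hB : (∑ i, (j (g i) (a - x)) * j (g i) (z - x)) = j w x - j w z := by
        have := hjw (z - x)
        rw [map_sub] at this
        linarith
      have hB2 : (∑ i, (j (g i) (a - x)) * j (g i) (z - x)) ≤ 2 * S * (2 * η + κ') + η := by
        rw [hB]
        have h1 : j w x - j w f ≤ 2 * S * ‖x - f‖ := by
          rw [← map_sub]; exact (le_abs_self _).trans hjwx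
        have h2 : 2 * S * ‖x - f‖ ≤ 2 * S * (2 * η + κ') :=
          mul_le_mul_of_nonneg_left hxf (by linarith)
        linarith
      have hB3 : 2 * n * (2 * S * (2 * η + κ') + η) ≤ 1 := by
        have h1 : 2 * S * (2 * η + κ') + η ≤ η * (5 * (S + 1)) := by
          have h5 : 2 * S * (2 * η + κ') ≤ 2 * S * (2 * η + η / 16) :=
            mul_le_mul_of_nonneg_left (by linarith) (by linarith)
          have h6 : 0 ≤ η * S := mul_nonneg hηpos.le hS0
          have h7 : 2 * S * (2 * η + η / 16) = (4 + 1 / 8) * (η * S) := by ring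
          have h8 : η * (5 * (S + 1)) = 5 * (η * S) + 5 * η := by ring
          rw [h8]
          rw [h7] at h5
          linarith
        have h2 : 2 * n * (η * (5 * (S + 1))) ≤ η * D := by
          have h5 : 0 ≤ η * (S + 1) := by positivity
          have h6 := mul_nonneg hn0 h5
          have h7 : η * D = 16 * (n * (η * (S + 1))) + 16 * (η * (S + 1)) := by
            rw [hD]; ring
          have h8 : 2 * (n : ℝ) * (η * (5 * (S + 1))) = 10 * (n * (η * (S + 1))) := by ring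
          rw [h7, h8]
          linarith
        have h3 : 2 * (n : ℝ) * (2 * S * (2 * η + κ') + η) ≤ 2 * n * (η * (5 * (S + 1))) :=
          mul_le_mul_of_nonneg_left h1 (by positivity)
        linarith
      have hB4 : 2 * n * (∑ i, (j (g i) (a - x)) * j (g i) (z - x)) ≤ 1 :=
        (mul_le_mul_of_nonneg_left hB2 (by positivity)).trans hB3
      have hzx : ‖z - x‖ ≤ 2 := (norm_sub_le _ _).trans (by rw [hx]; linarith)
      have hlast : ∑ i, (j (g i) (z - x)) ^ 2 ≤ 4 * S := by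
        rw [hS, Finset.mul_sum]
        refine Finset.sum_le_sum fun i _ => ?_
        have h1 : |j (g i) (z - x)| ≤ ‖j (g i)‖ * 2 := by
          have := (j (g i)).le_opNorm (z - x)
          rw [Real.norm_eq_abs] at this
          exact this.trans (mul_le_mul_of_nonneg_left hzx (norm_nonneg _))
        have h2 : (j (g i) (z - x)) ^ 2 = |j (g i) (z - x)| ^ 2 := (sq_abs _).symm
        rw [h2]
        calc |j (g i) (z - x)| ^ 2 ≤ (‖j (g i)‖ * 2) ^ 2 :=
              pow_le_pow_left₀ (abs_nonneg _) h1 2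
          _ = 4 * ‖j (g i)‖ ^ 2 := by ring
      push_cast
      linarith

/-- The slice property near `x` implies the property for finite intersections of slabs at `x`. -/
theorem slices_to_weak (j : V →ₗ[ℝ] (E →L[ℝ] ℝ)) (x : E) (hx : ‖x‖ = 1) (r : ℝ) (hr : 0 < r)
    (H : ∀ (v : V) (x' : E), ‖x'‖ = 1 → ‖x' - x‖ < r → ∀ τ : ℝ, 0 < τ → ∀ ε : ℝ, 0 < ε →
      ∃ y : E, ‖y‖ ≤ 1 ∧ j v x' - τ < j v y ∧ 2 - ε < ‖x' - y‖)
    (m : ℕ) (g : Fin m → V) (δ : ℝ) (hδ : 0 < δ)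
    (ε : ℝ) (hε : 0 < ε) :
    ∃ y : E, ‖y‖ ≤ 1 ∧ (∀ i, |j (g i) (y - x)| < δ) ∧ 2 - ε < ‖x - y‖ := by
  set C : ℝ := 4 * ∑ i, ‖j (g i)‖ ^ 2 + 1 with hC
  have hC1 : 1 ≤ C := by
    have : 0 ≤ ∑ i, ‖j (g i)‖ ^ 2 := Finset.sum_nonneg fun i _ => by positivity
    linarith
  obtain ⟨n, hn⟩ := exists_nat_gt (C / δ ^ 2)
  have hnpos : (0 : ℝ) < n := lt_of_le_of_lt (by positivity) hn
  obtain ⟨a, ha1, ha2, ha3⟩ := step j x hx r hr H m g C le_rfl n ε hε
  refine ⟨a, ha1, fun i => ?_, ha2⟩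
  have h1 : (j (g i) ((n : ℝ) • (a - x))) ^ 2 ≤ n * C :=
    (Finset.single_le_sum (f := fun i => (j (g i) ((n : ℝ) • (a - x))) ^ 2)
      (fun i _ => sq_nonneg _) (Finset.mem_univ i)).trans ha3
  rw [map_smul, smul_eq_mul, mul_pow] at h1
  have h2 : C < n * δ ^ 2 := by
    rwa [div_lt_iff₀ (by positivity)] at hn
  have h3 : (j (g i) (a - x)) ^ 2 < δ ^ 2 := by
    have h4 : (n : ℝ) ^ 2 * (j (g i) (a - x)) ^ 2 < (n : ℝ) ^ 2 * δ ^ 2 := by
      calc (n : ℝ) ^ 2 * (j (g i) (a - x)) ^ 2 ≤ n * C := h1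
        _ < n * (n * δ ^ 2) := mul_lt_mul_of_pos_left h2 hnpos
        _ = _ := by ring
    exact lt_of_mul_lt_mul_left h4 (by positivity)
  exact abs_lt_of_sq_lt_sq h3 hδ.le

end Core

section Pair

variable {E F : Type*} [NormedAddCommGroup E] [NormedSpace ℝ E] [NormedAddCommGroup F]
  [NormedSpace ℝ F]

/-- duality, case `‖v‖ ≤ 1` -/
lemma dual_aux {B : E →ₗ[ℝ] F →ₗ[ℝ] ℝ} (hb : ∀ x f, B x f ≤ ‖x‖ * ‖f‖)
    (hl : ∀ x c, c < ‖x‖ → ∃ f, ‖f‖ ≤ 1 ∧ c < B x f)
    (hr' : ∀ f c, c < ‖f‖ → ∃ x, ‖x‖ ≤ 1 ∧ c < B x f)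
    (f : F) (hf : ‖f‖ = 1) (r : ℝ) (hr : 0 < r)
    (H : ∀ x : E, ‖x‖ = 1 → 1 - r < B x f → ∀ τ : ℝ, 0 < τ → ∀ ε : ℝ, 0 < ε →
      ∃ y : E, ‖y‖ ≤ 1 ∧ B x f - τ < B y f ∧ 2 - ε < ‖x - y‖)
    (v : E) (hv : ‖v‖ ≤ 1) (τ : ℝ) (hτ : 0 < τ) (ε : ℝ) (hε : 0 < ε) :
    ∃ g : F, ‖g‖ ≤ 1 ∧ B v f - τ < B v g ∧ 2 - ε < ‖f - g‖ := by
  have hle : ∀ x : E, ∀ g : F, ‖x‖ ≤ 1 → ‖g‖ ≤ 1 → B x g ≤ 1 := by
    intro x g h1 h2
    exact (hb x g).trans (mul_le_one₀ h1 (norm_nonneg _) h2)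
  have hge : ∀ x : E, ∀ g : F, ‖x‖ ≤ 1 → ‖g‖ ≤ 1 → -1 ≤ B x g := by
    intro x g h1 h2
    have h3 := hle (-x) g (by rwa [norm_neg]) h2
    rw [map_neg, LinearMap.neg_apply] at h3
    linarith
  set l : ℝ := min (min ε 1) r / 16 with hl'
  have hl0 : 0 < l := by
    have : 0 < min (min ε 1) r := lt_min (lt_min hε one_pos) hr
    positivity
  have hlε : 16 * l ≤ ε := by
    rw [hl']; linarith [min_le_left (min ε 1) r, min_le_left ε 1]
  have hl1 : 16 * l ≤ 1 := by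
    rw [hl']; linarith [min_le_left (min ε 1) r, min_le_right ε 1]
  have hlr : 16 * l ≤ r := by
    rw [hl']; linarith [min_le_right (min ε 1) r]
  set t : ℝ := l * min τ 1 / 4 with ht
  have ht0 : 0 < t := by
    have : 0 < min τ 1 := lt_min hτ one_pos
    positivity
  have htl : t ≤ l / 4 := by
    have : l * min τ 1 ≤ l * 1 := mul_le_mul_of_nonneg_left (min_le_right _ _) hl0.le
    rw [ht]; linarith
  have htτ : 4 * t ≤ l * τ := by
    have : l * min τ 1 ≤ l * τ := mul_le_mul_of_nonneg_left (min_le_left _ _) hl0.le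
    rw [ht]; linarith
  obtain ⟨x₁, hx₁, hfx₁⟩ := hr' f (1 - t) (by rw [hf]; linarith)
  set u : E := (1 - l) • x₁ + l • v with hu
  have hu1 : ‖u‖ ≤ 1 := by
    calc ‖u‖ ≤ ‖(1 - l) • x₁‖ + ‖l • v‖ := norm_add_le _ _
      _ = (1 - l) * ‖x₁‖ + l * ‖v‖ := by
          rw [norm_smul, norm_smul, Real.norm_of_nonneg (by linarith),
            Real.norm_of_nonneg hl0.le]
      _ ≤ (1 - l) * 1 + l * 1 := by
          have h1 := mul_le_mul_of_nonneg_left hx₁ (by linarith : (0 : ℝ) ≤ 1 - l)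
          have h2 := mul_le_mul_of_nonneg_left hv hl0.le
          linarith
      _ = 1 := by ring
  have huB : ∀ g : F, B u g = (1 - l) * B x₁ g + l * B v g := by
    intro g
    rw [hu, map_add, map_smul, map_smul]
    rfl
  have hfv : -1 ≤ B v f := hge v f hv hf.le
  have hfv' : l * (-1) ≤ l * B v f := mul_le_mul_of_nonneg_left hfv hl0.le
  have h1l : (1 - l) * (1 - t) ≤ (1 - l) * B x₁ f :=
    mul_le_mul_of_nonneg_left hfx₁.le (by linarith)
  have hlt : l * t ≥ 0 := by positivity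
  have h1l' : (1 - l) * (1 - t) = 1 - l - t + l * t := by ring
  have hfu := huB f
  have hfu2 : 1 - 2 * l - t ≤ B u f := by rw [hfu]; linarith
  have hfule : B u f ≤ ‖u‖ := by
    have h1 := hb u f
    rwa [hf, mul_one] at h1
  have hupos : 0 < ‖u‖ := by linarith
  set w : E := (‖u‖)⁻¹ • u with hw
  have hw1 : ‖w‖ = 1 := by
    rw [hw, norm_smul, norm_inv, norm_norm, inv_mul_cancel₀ hupos.ne']
  have huw : u = ‖u‖ • w := by
    rw [hw, smul_smul, mul_inv_cancel₀ hupos.ne', one_smul]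
  have huwB : ∀ g : F, B u g = ‖u‖ * B w g := by
    intro g
    conv_lhs => rw [huw]
    rw [map_smul]
    rfl
  have hfw : B u f ≤ B w f := by
    have h1 := huwB f
    have h2 : 0 ≤ B w f := by
      have : 0 < ‖u‖ * B w f := by rw [← h1]; linarith
      exact ((pos_iff_pos_of_mul_pos this).1 hupos).le
    rw [h1]
    have := mul_le_mul_of_nonneg_right hu1 h2
    linarith
  obtain ⟨y, hy1, hy2, hy3⟩ := H w hw1 (by linarith) t ht0 t ht0
  obtain ⟨g, hg1, hg2⟩ := hl (w - y) (2 - t) hy3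
  rw [map_sub, LinearMap.sub_apply] at hg2
  have e2 : B w g ≤ 1 := hle w g hw1.le hg1
  have e3 : -1 ≤ B y g := hge y g hy1 hg1
  have e4 : 1 - t < B w g := by linarith
  have e5 : B y g < -1 + t := by linarith
  refine ⟨g, hg1, ?_, ?_⟩
  · have h1 := huwB g
    have h2 : ‖u‖ * (1 - t) ≤ ‖u‖ * B w g := mul_le_mul_of_nonneg_left e4.le hupos.le
    have h3 : ‖u‖ * t ≤ 1 * t := mul_le_mul_of_nonneg_right hu1 ht0.le
    have h4 : ‖u‖ * (1 - t) = ‖u‖ - ‖u‖ * t := by ring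
    have h5 : B u f - t ≤ B u g := by linarith
    have h6 := huB g
    have h7 : (1 - l) * B x₁ g ≤ (1 - l) * 1 :=
      mul_le_mul_of_nonneg_left (hle x₁ g hx₁ hg1) (by linarith)
    have h8 : l * (B v f - τ) < l * B v g := by
      have : l * (B v f - τ) = l * B v f - l * τ := by ring
      rw [this]
      linarith
    exact lt_of_mul_lt_mul_left h8 hl0.le
  · have h1 := hb y (f - g)
    have h2 : ‖y‖ * ‖f - g‖ ≤ 1 * ‖f - g‖ := mul_le_mul_of_nonneg_right hy1 (norm_nonneg _)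
    rw [map_sub] at h1
    linarith

theorem dual {B : E →ₗ[ℝ] F →ₗ[ℝ] ℝ} (hb : ∀ x f, B x f ≤ ‖x‖ * ‖f‖)
    (hl : ∀ x c, c < ‖x‖ → ∃ f, ‖f‖ ≤ 1 ∧ c < B x f)
    (hr' : ∀ f c, c < ‖f‖ → ∃ x, ‖x‖ ≤ 1 ∧ c < B x f)
    (f : F) (hf : ‖f‖ = 1) (r : ℝ) (hr : 0 < r)
    (H : ∀ x : E, ‖x‖ = 1 → 1 - r < B x f → ∀ τ : ℝ, 0 < τ → ∀ ε : ℝ, 0 < ε →
      ∃ y : E, ‖y‖ ≤ 1 ∧ B x f - τ < B y f ∧ 2 - ε < ‖x - y‖)
    (v : E) (τ : ℝ) (hτ : 0 < τ) (ε : ℝ) (hε : 0 < ε) :
    ∃ g : F, ‖g‖ ≤ 1 ∧ B v f - τ < B v g ∧ 2 - ε < ‖f - g‖ := by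
  have hR : 0 < ‖v‖ + 1 := by positivity
  have hv' : ‖(‖v‖ + 1)⁻¹ • v‖ ≤ 1 := by
    rw [norm_smul, norm_inv, Real.norm_of_nonneg hR.le, inv_mul_le_iff₀ hR]
    linarith
  obtain ⟨g, hg1, hg2, hg3⟩ := dual_aux hb hl hr' f hf r hr H ((‖v‖ + 1)⁻¹ • v) hv'
    ((‖v‖ + 1)⁻¹ * τ) (by positivity) ε hε
  refine ⟨g, hg1, ?_, hg3⟩
  have e : ∀ g : F, B ((‖v‖ + 1)⁻¹ • v) g = (‖v‖ + 1)⁻¹ * B v g := by
    intro g
    rw [map_smul]
    rfl
  rw [e, e, ← mul_sub] at hg2
  exact lt_of_mul_lt_mul_left hg2 (by positivity)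

/-- local passage from slices to weakly open sets -/
theorem slab {B : E →ₗ[ℝ] F →ₗ[ℝ] ℝ} (hb : ∀ x f, B x f ≤ ‖x‖ * ‖f‖) (x : E) (hx : ‖x‖ = 1)
    (r : ℝ) (hr : 0 < r)
    (H : ∀ (f : F) (x' : E), ‖x'‖ = 1 → ‖x' - x‖ < r → ∀ τ : ℝ, 0 < τ → ∀ ε : ℝ, 0 < ε →
      ∃ y : E, ‖y‖ ≤ 1 ∧ B x' f - τ < B y f ∧ 2 - ε < ‖x' - y‖)
    (U : Set (WeakBilin B)) (hU : IsOpen U) (hxU : (x : WeakBilin B) ∈ U) (ε : ℝ) (hε : 0 < ε) :
    ∃ y : E, ‖y‖ ≤ 1 ∧ (y : WeakBilin B) ∈ U ∧ 2 - ε < ‖x - y‖ := by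
  have hb' : ∀ f x, ‖B.flip f x‖ ≤ 1 * ‖f‖ * ‖x‖ := by
    intro f x
    rw [Real.norm_eq_abs, abs_le, LinearMap.flip_apply]
    have h1 := hb x f
    have h2 := hb (-x) f
    rw [map_neg, LinearMap.neg_apply, norm_neg] at h2
    constructor <;> nlinarith
  obtain ⟨m, g, δ, hδ, hg⟩ := Pool.Agent.H130R6.weakBilin_nbhd B U hU x hxU
  obtain ⟨y, hy1, hy2, hy3⟩ := slices_to_weak
    (B.flip.mkContinuous₂ 1 hb').toLinearMap x hx r hr
    (fun f x' h1 h2 τ hτ ε hε => H f x' h1 h2 τ hτ ε hε) m g δ hδ ε hε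
  refine ⟨y, hy1, hg y ?_, hy3⟩
  intro i
  have h1 := hy2 i
  rw [map_sub] at h1
  exact h1

end Pair

end Pool.Agent.Y302.DDP
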